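import Pool.Agent.Helper31.CY.St1

/-!
# Project CY, module TC2: the contingent cone of a level set
-/

set_option autoImplicit false

open Set Topology Filter Asymptotics

namespace Pool.Agent.Helper30.CY

open Pool.Agent.Helper31.CY

private theorem exists_unit (L : E3 →L[ℝ] ℝ) (hL : L ≠ 0) : ∃ w, L w = 1 := by
  obtain ⟨u, hu⟩ : ∃ u, L u ≠ 0 := by
    by_contra hcon
    push Not at hcon
    exact hL (ContinuousLinearMap.ext fun u => by simpa using hcon u)
  refine ⟨(L u)⁻¹ • u, ?_⟩
  rw [map_smul, smul_eq_mul, inv_mul_cancel₀ hu]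

private theorem key (p : E3) (f : E3 → ℝ) (U : Set E3) (hU : IsOpen U) (hp : p ∈ U)
    (hc : ContinuousOn f U) (L : E3 →L[ℝ] ℝ) (hd : HasFDerivAt f L p) (hfp : f p = 0)
    (v w : E3) (hv : L v = 0) (hw : L w = 1) (ε : ℝ) (hε : 0 < ε) :
    ∃ s : ℝ, 0 < s ∧ s < ε ∧ ∃ u : ℝ, |u| ≤ ε * s ∧ p + s • v + u • w ∈ U ∧
      f (p + s • v + u • w) = 0 := by
  set C : ℝ := ‖v‖ + ε * ‖w‖ + 1 with hC
  have hC0 : 0 < C := by
    have := norm_nonneg v
    have := mul_nonneg hε.le (norm_nonneg w)
    linarith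
  have hb : ∀ s u : ℝ, 0 < s → |u| ≤ ε * s → ‖s • v + u • w‖ ≤ C * s := by
    intro s u hs hu
    calc ‖s • v + u • w‖ ≤ ‖s • v‖ + ‖u • w‖ := norm_add_le _ _
      _ = s * ‖v‖ + |u| * ‖w‖ := by
          rw [norm_smul, norm_smul, Real.norm_eq_abs, Real.norm_eq_abs, abs_of_pos hs]
      _ ≤ s * ‖v‖ + (ε * s) * ‖w‖ := by
          have := mul_le_mul_of_nonneg_right hu (norm_nonneg w)
          linarith
      _ ≤ C * s := by rw [hC]; nlinarith
  -- the differential
  have hlo := (hasFDerivAt_iff_isLittleO.1 hd).def (show 0 < ε / (2 * C) by positivity)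
  obtain ⟨δ1, hδ1, hlo⟩ := Metric.eventually_nhds_iff.1 hlo
  obtain ⟨δ2, hδ2, hUb⟩ := Metric.isOpen_iff.1 hU p hp
  set δ : ℝ := min δ1 δ2 with hδ
  have hδ0 : 0 < δ := lt_min hδ1 hδ2
  set s : ℝ := min (ε / 2) (δ / (2 * C)) with hs
  have hs0 : 0 < s := lt_min (by positivity) (by positivity)
  have hsε : s < ε := (min_le_left _ _).trans_lt (by linarith)
  have hsδ : C * s < δ := by
    have h1 : s ≤ δ / (2 * C) := min_le_right _ _
    have h2 : C * s ≤ C * (δ / (2 * C)) := mul_le_mul_of_nonneg_left h1 hC0.le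
    have h3 : C * (δ / (2 * C)) = δ / 2 := by field_simp
    linarith
  have hdist : ∀ u : ℝ, |u| ≤ ε * s → dist (p + s • v + u • w) p < δ := by
    intro u hu
    rw [dist_eq_norm]
    have h1 : p + s • v + u • w - p = s • v + u • w := by abel
    rw [h1]
    exact (hb s u hs0 hu).trans_lt hsδ
  have hmemU : ∀ u : ℝ, |u| ≤ ε * s → p + s • v + u • w ∈ U := fun u hu =>
    hUb (Metric.mem_ball.2 ((hdist u hu).trans_le (min_le_right _ _)))
  have hval : ∀ u : ℝ, |u| ≤ ε * s → |f (p + s • v + u • w) - u| ≤ ε * s / 2 := by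
    intro u hu
    have h1 := hlo ((hdist u hu).trans_le (min_le_left _ _))
    have h2 : p + s • v + u • w - p = s • v + u • w := by abel
    rw [h2, hfp, map_add, map_smul, map_smul, hv, hw, Real.norm_eq_abs] at h1
    simp only [smul_eq_mul, mul_zero, zero_add, mul_one, sub_zero] at h1
    refine h1.trans ?_
    have h3 := hb s u hs0 hu
    calc ε / (2 * C) * ‖s • v + u • w‖ ≤ ε / (2 * C) * (C * s) :=
          mul_le_mul_of_nonneg_left h3 (by positivity)
      _ = ε * s / 2 := by field_simp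
  have hεs : 0 < ε * s := by positivity
  have hcont : ContinuousOn (fun u : ℝ => f (p + s • v + u • w)) (Icc (-(ε * s)) (ε * s)) := by
    refine hc.comp (f := fun u : ℝ => p + s • v + u • w) (by fun_prop) ?_
    intro u hu
    exact hmemU u (abs_le.2 hu)
  have hneg : f (p + s • v + (-(ε * s)) • w) ≤ 0 := by
    have h1 := hval (-(ε * s)) (by rw [abs_neg, abs_of_pos hεs])
    have h2 := (abs_le.1 h1).2
    linarith
  have hpos : 0 ≤ f (p + s • v + (ε * s) • w) := by
    have h1 := hval (ε * s) (by rw [abs_of_pos hεs])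
    have h2 := (abs_le.1 h1).1
    linarith
  obtain ⟨u, hu, hu0⟩ := intermediate_value_Icc (by linarith) hcont ⟨hneg, hpos⟩
  exact ⟨s, hs0, hsε, u, abs_le.2 hu, hmemU u (abs_le.2 hu), hu0⟩

/-- The contingent cone of a level set is the kernel of the differential. -/
theorem hTC2 : StTC2 := by
  intro S p f U hU hp hf hf' hfp hS v
  have hd : HasFDerivAt f (fderiv ℝ f p) p :=
    ((hf.contDiffAt (hU.mem_nhds hp)).differentiableAt one_ne_zero).hasFDerivAt
  constructor
  · rintro ⟨x, t, hx, ht, hxp, hxv⟩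
    have h1 : (fun n => f (x n) - f p - fderiv ℝ f p (x n - p)) =o[atTop] fun n => x n - p :=
      (hasFDerivAt_iff_isLittleO.1 hd).comp_tendsto hxp
    have h2 : (fun n => t n • (f (x n) - f p - fderiv ℝ f p (x n - p))) =o[atTop]
        fun n => t n • (x n - p) := (isBigO_refl t atTop).smul_isLittleO h1
    have h3 : Tendsto (fun n => t n • (f (x n) - f p - fderiv ℝ f p (x n - p))) atTop (𝓝 0) :=
      (isLittleO_one_iff ℝ).1 (h2.trans_isBigO (hxv.isBigO_one ℝ))
    have h4 : Tendsto (fun n => fderiv ℝ f p (t n • (x n - p))) atTop (𝓝 (fderiv ℝ f p v)) :=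
      ((fderiv ℝ f p).continuous.tendsto v).comp hxv
    have h5 : ∀ᶠ n in atTop, t n • (f (x n) - f p - fderiv ℝ f p (x n - p)) =
        -(fderiv ℝ f p (t n • (x n - p))) := by
      filter_upwards [hxp.eventually (hU.mem_nhds hp)] with n hn
      rw [(hS (x n) hn).1 (hx n), hfp, map_smul, sub_zero, zero_sub, smul_neg]
    have h6 : Tendsto (fun n => -(fderiv ℝ f p (t n • (x n - p)))) atTop (𝓝 0) :=
      h3.congr' h5
    have h7 := tendsto_nhds_unique h6 h4.neg
    linarith
  · intro hv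
    obtain ⟨w, hw⟩ := exists_unit _ hf'
    have hkey := fun n : ℕ => key p f U hU hp hf.continuousOn (fderiv ℝ f p) hd hfp v w hv hw
      (1 / ((n : ℝ) + 1)) (by positivity)
    choose s hs0 hs1 u hu hmem hz using hkey
    have hlim : Tendsto (fun n : ℕ => 1 / ((n : ℝ) + 1)) atTop (𝓝 0) :=
      tendsto_one_div_add_atTop_nhds_zero_nat
    have hslim : Tendsto s atTop (𝓝 0) :=
      squeeze_zero (fun n => (hs0 n).le) (fun n => (hs1 n).le) hlim
    have hq : Tendsto (fun n => u n / s n) atTop (𝓝 0) := by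
      refine squeeze_zero_norm (fun n => ?_) hlim
      rw [Real.norm_eq_abs, abs_div, abs_of_pos (hs0 n), div_le_iff₀ (hs0 n)]
      exact hu n
    have hulim : Tendsto u atTop (𝓝 0) := by
      have h1 := hq.mul hslim
      rw [zero_mul] at h1
      refine h1.congr fun n => ?_
      exact div_mul_cancel₀ _ (hs0 n).ne'
    refine ⟨fun n => p + s n • v + u n • w, fun n => (s n)⁻¹, fun n => ?_, fun n => ?_, ?_, ?_⟩
    · exact (hS _ (hmem n)).2 (hz n)
    · exact inv_pos.2 (hs0 n)
    · have h1 : Tendsto (fun n => p + s n • v + u n • w) atTop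
          (𝓝 (p + (0 : ℝ) • v + (0 : ℝ) • w)) :=
        (tendsto_const_nhds.add (hslim.smul_const v)).add (hulim.smul_const w)
      simpa using h1
    · have h1 : Tendsto (fun n => v + (u n / s n) • w) atTop (𝓝 (v + (0 : ℝ) • w)) :=
        tendsto_const_nhds.add (hq.smul_const w)
      rw [zero_smul, add_zero] at h1
      refine h1.congr fun n => ?_
      have h2 : p + s n • v + u n • w - p = s n • v + u n • w := by abel
      rw [h2, smul_add, smul_smul, smul_smul, inv_mul_cancel₀ (hs0 n).ne', one_smul,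
        div_eq_inv_mul]

end Pool.Agent.Helper30.CY
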